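import Mathlib
import Pool.Agent.H17.TR.Cograph

set_option autoImplicit false

/-!
Constant vertices of `P4`-free looped graphs in which every closed pair has a midpoint
(MP_a46c6f_co, matrix form of the rooted tree statement; proof of helper44's note 7046, Claim A).
-/

namespace Pool.Agent.H42.Cyl

open Pool.Agent.H17.TR

variable {X : Type}

/-- every closed pair of `D` has a midpoint in `D` -/
def PairsIn (R : X → X → Prop) (D : Finset X) : Prop :=
  ∀ u ∈ D, ∀ v ∈ D, (R u u ↔ R v v) → ¬ (R u v ↔ R u u) →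
    ∃ g ∈ D, ¬ (R g g ↔ R u u) ∧ (R g u ↔ R g g) ∧ (R g v ↔ R g g) ∧
      ∀ x, (R u x ↔ R v x) → (R g x ↔ R u x)

/-- an induced path -/
def P4 (R : X → X → Prop) (a b c d : X) : Prop :=
  R a b ∧ R b c ∧ R c d ∧ ¬ R a c ∧ ¬ R a d ∧ ¬ R b d

/-- no induced path inside `D` -/
def Free (R : X → X → Prop) (D : Finset X) : Prop :=
  ∀ a ∈ D, ∀ b ∈ D, ∀ c ∈ D, ∀ d ∈ D, ¬ P4 R a b c d

/-- a nonempty union of components of `D` -/
def Closed (R : X → X → Prop) (D K : Finset X) : Prop :=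
  K ⊆ D ∧ K.Nonempty ∧ ∀ u ∈ K, ∀ w ∈ D, w ∉ K → ¬ R u w

/-- a component of `D` -/
def Comp (R : X → X → Prop) (D K : Finset X) : Prop :=
  Closed R D K ∧ ∀ K' ⊆ K, Closed R D K' → K' = K

/-- an isolated vertex or a full vertex -/
def Const (R : X → X → Prop) (D : Finset X) : Prop :=
  (∃ x ∈ D, ∀ y ∈ D, ¬ R x y) ∨ (∃ x ∈ D, ∀ y ∈ D, R x y)

theorem Free.mono {R : X → X → Prop} {D E : Finset X} (h : Free R D) (hED : E ⊆ D) : Free R E :=
  fun a ha b hb c hc d hd => h a (hED ha) b (hED hb) c (hED hc) d (hED hd)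

theorem seinsche_rel (R : X → X → Prop) (hs : ∀ x y, R x y → R y x) (D : Finset X)
    (hf : Free R D) (h2 : 2 ≤ D.card) :
    ∃ B ⊆ D, B.Nonempty ∧ B ≠ D ∧ ((∀ u ∈ B, ∀ w ∈ D, w ∉ B → R u w) ∨
      (∀ u ∈ B, ∀ w ∈ D, w ∉ B → ¬ R u w)) := by
  classical
  let M : {x // x ∈ D} → {x // x ∈ D} → ZMod 2 := fun x y => if R x.1 y.1 then 1 else 0
  have hM1 : ∀ x y, M x y = 1 ↔ R x.1 y.1 := by
    intro x y
    by_cases h : R x.1 y.1 <;> simp [M, h]
  have hM0 : ∀ x y, M x y = 0 ↔ ¬ R x.1 y.1 := by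
    intro x y
    by_cases h : R x.1 y.1 <;> simp [M, h]
  have hsM : ∀ x y, M x y = M y x := by
    intro x y
    by_cases h : R x.1 y.1
    · have h' := hs _ _ h
      rw [(hM1 x y).2 h, (hM1 y x).2 h']
    · have h' : ¬ R y.1 x.1 := fun h1 => h (hs _ _ h1)
      rw [(hM0 x y).2 h, (hM0 y x).2 h']
  have hP : ∀ a b c d, ¬ IsP4 M a b c d := by
    intro a b c d h
    exact hf a.1 a.2 b.1 b.2 c.1 c.2 d.1 d.2 ⟨(hM1 _ _).1 h.ab, (hM1 _ _).1 h.bc, (hM1 _ _).1 h.cd,
      (hM0 _ _).1 h.ac, (hM0 _ _).1 h.ad, (hM0 _ _).1 h.bd⟩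
  have hcard : (Finset.univ : Finset {x // x ∈ D}).card = D.card := by
    rw [Finset.card_univ, Fintype.card_coe]
  obtain ⟨B, _, hBe, hBn, s, hsB⟩ := seinsche M hsM hP _ Finset.univ hcard h2
  refine ⟨B.map (Function.Embedding.subtype _), ?_, ?_, ?_, ?_⟩
  · intro x hx
    rw [Finset.mem_map] at hx
    obtain ⟨y, _, rfl⟩ := hx
    exact y.2
  · rw [Finset.map_nonempty]
    exact Finset.nonempty_iff_ne_empty.2 hBe
  · intro h
    apply hBn
    rw [Finset.eq_univ_iff_forall]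
    intro x
    have hx : x.1 ∈ B.map (Function.Embedding.subtype _) := by
      rw [h]
      exact x.2
    rw [Finset.mem_map] at hx
    obtain ⟨y, hy, hyx⟩ := hx
    have : y = x := Subtype.ext hyx
    rwa [← this]
  · have hs01 : ∀ s : ZMod 2, s = 0 ∨ s = 1 := by decide
    rcases hs01 s with rfl | rfl
    · right
      intro u hu w hw hwn
      rw [Finset.mem_map] at hu
      obtain ⟨u', hu', rfl⟩ := hu
      have h1 : (⟨w, hw⟩ : {x // x ∈ D}) ∉ B := by
        intro h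
        exact hwn (Finset.mem_map.2 ⟨⟨w, hw⟩, h, rfl⟩)
      exact (hM0 u' ⟨w, hw⟩).1 (hsB u' hu' ⟨w, hw⟩ (Finset.mem_univ _) h1)
    · left
      intro u hu w hw hwn
      rw [Finset.mem_map] at hu
      obtain ⟨u', hu', rfl⟩ := hu
      have h1 : (⟨w, hw⟩ : {x // x ∈ D}) ∉ B := by
        intro h
        exact hwn (Finset.mem_map.2 ⟨⟨w, hw⟩, h, rfl⟩)
      exact (hM1 u' ⟨w, hw⟩).1 (hsB u' hu' ⟨w, hw⟩ (Finset.mem_univ _) h1)

/-- a component containing a given vertex -/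
theorem exists_comp (R : X → X → Prop) (hs : ∀ x y, R x y → R y x) (D : Finset X) (x : X)
    (hx : x ∈ D) : ∃ K, Comp R D K ∧ x ∈ K := by
  classical
  have hex : ∃ k, ∃ K, Closed R D K ∧ x ∈ K ∧ K.card = k :=
    ⟨_, D, ⟨Finset.Subset.refl _, ⟨x, hx⟩, fun u _ w hw hwn => absurd hw hwn⟩, hx, rfl⟩
  obtain ⟨K, hK, hxK, hKc⟩ := Nat.find_spec hex
  have hmin : ∀ K', Closed R D K' → x ∈ K' → K.card ≤ K'.card := by
    intro K' h1 h2
    rw [hKc]
    exact Nat.find_min' hex ⟨K', h1, h2, rfl⟩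
  refine ⟨K, ⟨hK, ?_⟩, hxK⟩
  intro K' hK'K hK'
  by_cases hxK' : x ∈ K'
  · exact Finset.eq_of_subset_of_card_le hK'K (hmin K' hK' hxK')
  · exfalso
    have h1 : Closed R D (K \ K') := by
      refine ⟨Finset.sdiff_subset.trans hK.1, ⟨x, Finset.mem_sdiff.2 ⟨hxK, hxK'⟩⟩, ?_⟩
      intro u hu w hw hwn hR
      rw [Finset.mem_sdiff] at hu
      by_cases hwK : w ∈ K
      · have hwK' : w ∈ K' := by
          by_contra h
          exact hwn (Finset.mem_sdiff.2 ⟨hwK, h⟩)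
        exact hK'.2.2 w hwK' u (hK.1 hu.1) hu.2 (hs _ _ hR)
      · exact hK.2.2 u hu.1 w hw hwK hR
    have h2 := hmin _ h1 (Finset.mem_sdiff.2 ⟨hxK, hxK'⟩)
    have h3 : (K \ K').card < K.card := by
      apply Finset.card_lt_card
      rw [Finset.ssubset_iff_subset_ne]
      refine ⟨Finset.sdiff_subset, ?_⟩
      intro h
      obtain ⟨z, hz⟩ := hK'.2.1
      have : z ∈ K \ K' := by
        rw [h]
        exact hK'K hz
      exact (Finset.mem_sdiff.1 this).2 hz
    omega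

theorem comp_pairs (R : X → X → Prop) (hs : ∀ x y, R x y → R y x) (D K : Finset X)
    (hK : Comp R D K) (hf : Free R D) (hp : PairsIn R D) : PairsIn R K := by
  classical
  intro u hu v hv huv hne
  obtain ⟨g, hgD, hgg, hgu, hgv, hag⟩ := hp u (hK.1.1 hu) v (hK.1.1 hv) huv hne
  refine ⟨g, ?_, hgg, hgu, hgv, hag⟩
  by_contra hgK
  by_cases h1 : R u u
  · -- loops, not adjacent: a common neighbour
    have h2 : ¬ R u v := fun h => hne ⟨fun _ => h1, fun _ => h⟩
    have huvne : u ≠ v := by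
      rintro rfl
      exact h2 h1
    have hcard : 2 ≤ K.card := by
      have : 1 < K.card := Finset.one_lt_card.2 ⟨u, hu, v, hv, huvne⟩
      omega
    obtain ⟨B, hBK, hBne, hBn, hB⟩ := seinsche_rel R hs K (hf.mono hK.1.1) hcard
    rcases hB with hB | hB
    · have hcn : ∃ w ∈ K, R u w ∧ R v w := by
        by_cases huB : u ∈ B
        · by_cases hvB : v ∈ B
          · have : ∃ w ∈ K, w ∉ B := by
              by_contra h
              push Not at h
              exact hBn (Finset.Subset.antisymm hBK h)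
            obtain ⟨w, hw, hwB⟩ := this
            exact ⟨w, hw, hB u huB w hw hwB, hB v hvB w hw hwB⟩
          · exact absurd (hB u huB v hv hvB) h2
        · by_cases hvB : v ∈ B
          · exact absurd (hs _ _ (hB v hvB u hu huB)) h2
          · obtain ⟨w, hw⟩ := hBne
            exact ⟨w, hBK hw, hs _ _ (hB w hw u hu huB), hs _ _ (hB w hw v hv hvB)⟩
      obtain ⟨w, hw, huw, hvw⟩ := hcn
      have hgw : R g w := (hag w ⟨fun _ => hvw, fun _ => huw⟩).2 huw
      exact hK.1.2.2 w hw g hgD hgK (hs _ _ hgw)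
    · have hcl : Closed R D B := by
        refine ⟨hBK.trans hK.1.1, hBne, ?_⟩
        intro a ha w hw hwn
        by_cases hwK : w ∈ K
        · exact hB a ha w hwK hwn
        · exact hK.1.2.2 a (hBK ha) w hw hwK
      exact hBn (hK.2 B hBK hcl)
  · have h3 : R g g := by
      by_contra h
      exact hgg ⟨fun h' => absurd h' h, fun h' => absurd h' h1⟩
    exact hK.1.2.2 u hu g hgD hgK (hs _ _ (hgu.2 h3))

/-- the disconnected case of Claim A -/
theorem step0 (R : X → X → Prop) (hs : ∀ x y, R x y → R y x) (D : Finset X)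
    (ih : ∀ D' : Finset X, D'.card < D.card → D'.Nonempty → Free R D' → PairsIn R D' → Const R D')
    (hf : Free R D) (hp : PairsIn R D) (B : Finset X) (hBD : B ⊆ D) (hBne : B.Nonempty)
    (hBn : B ≠ D) (hB : ∀ u ∈ B, ∀ w ∈ D, w ∉ B → ¬ R u w) : Const R D := by
  classical
  -- two different components
  obtain ⟨x₁, hx₁⟩ := hBne
  have : ∃ w ∈ D, w ∉ B := by
    by_contra h
    push Not at h
    exact hBn (Finset.Subset.antisymm hBD h)
  obtain ⟨x₂, hx₂, hx₂B⟩ := this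
  obtain ⟨K₁, hK₁, hxK₁⟩ := exists_comp R hs D x₁ (hBD hx₁)
  obtain ⟨K₂, hK₂, hxK₂⟩ := exists_comp R hs D x₂ hx₂
  -- a component meeting a closed set is inside it
  have hin : ∀ K, Comp R D K → ∀ B', Closed R D B' → ∀ z ∈ K, z ∈ B' → K ⊆ B' := by
    intro K hK B' hB' z hz hzB'
    have h1 : Closed R D (K ∩ B') := by
      refine ⟨Finset.inter_subset_left.trans hK.1.1, ⟨z, Finset.mem_inter.2 ⟨hz, hzB'⟩⟩, ?_⟩
      intro u hu w hw hwn
      rw [Finset.mem_inter] at hu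
      by_cases hwK : w ∈ K
      · have : w ∉ B' := fun h => hwn (Finset.mem_inter.2 ⟨hwK, h⟩)
        exact hB'.2.2 u hu.2 w hw this
      · exact hK.1.2.2 u hu.1 w hw hwK
    have h2 := hK.2 _ Finset.inter_subset_left h1
    rw [← h2]
    exact Finset.inter_subset_right
  have hBc : Closed R D B := ⟨hBD, ⟨x₁, hx₁⟩, hB⟩
  have hK₁B : K₁ ⊆ B := hin K₁ hK₁ B hBc x₁ hxK₁ hx₁
  have hBc' : Closed R D (D \ B) := by
    refine ⟨Finset.sdiff_subset, ⟨x₂, Finset.mem_sdiff.2 ⟨hx₂, hx₂B⟩⟩, ?_⟩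
    intro u hu w hw hwn hR
    rw [Finset.mem_sdiff] at hu
    have hwB : w ∈ B := by
      by_contra h
      exact hwn (Finset.mem_sdiff.2 ⟨hw, h⟩)
    exact hB w hwB u hu.1 hu.2 (hs _ _ hR)
  have hK₂B : K₂ ⊆ D \ B := hin K₂ hK₂ _ hBc' x₂ hxK₂ (Finset.mem_sdiff.2 ⟨hx₂, hx₂B⟩)
  have hdisj : ∀ y, y ∈ K₁ → y ∈ K₂ → False := fun y h1 h2 =>
    (Finset.mem_sdiff.1 (hK₂B h2)).2 (hK₁B h1)
  have hc₁ : K₁.card < D.card := by
    apply Finset.card_lt_card
    rw [Finset.ssubset_iff_subset_ne]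
    refine ⟨hK₁.1.1, ?_⟩
    intro h
    exact hdisj x₂ (by rw [h]; exact hx₂) hxK₂
  have hc₂ : K₂.card < D.card := by
    apply Finset.card_lt_card
    rw [Finset.ssubset_iff_subset_ne]
    refine ⟨hK₂.1.1, ?_⟩
    intro h
    exact hdisj x₁ hxK₁ (by rw [h]; exact hBD hx₁)
  have hiso : ∀ K, Comp R D K → (∃ x ∈ K, ∀ y ∈ K, ¬ R x y) → Const R D := by
    intro K hK ⟨x, hx, hxy⟩
    left
    refine ⟨x, hK.1.1 hx, ?_⟩
    intro y hy
    by_cases hyK : y ∈ K
    · exact hxy y hyK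
    · exact hK.1.2.2 x hx y hy hyK
  rcases ih K₁ hc₁ hK₁.1.2.1 (hf.mono hK₁.1.1) (comp_pairs R hs D K₁ hK₁ hf hp) with h | h
  · exact hiso K₁ hK₁ h
  obtain ⟨f₁, hf₁, hff₁⟩ := h
  rcases ih K₂ hc₂ hK₂.1.2.1 (hf.mono hK₂.1.1) (comp_pairs R hs D K₂ hK₂ hf hp) with h | h
  · exact hiso K₂ hK₂ h
  obtain ⟨f₂, hf₂, hff₂⟩ := h
  have h11 := hff₁ f₁ hf₁
  have h22 := hff₂ f₂ hf₂
  have h12 : ¬ R f₁ f₂ := hK₁.1.2.2 f₁ hf₁ f₂ (hK₂.1.1 hf₂) (fun h => hdisj f₂ h hf₂)
  obtain ⟨g, hgD, hgg, hgu, hgv, hag⟩ := hp f₁ (hK₁.1.1 hf₁) f₂ (hK₂.1.1 hf₂)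
    ⟨fun _ => h22, fun _ => h11⟩ (fun h => h12 (h.2 h11))
  have hgg' : ¬ R g g := fun h => hgg ⟨fun _ => h11, fun _ => h⟩
  have hg1 : ¬ R g f₁ := fun h => hgg' (hgu.1 h)
  have hg2 : ¬ R g f₂ := fun h => hgg' (hgv.1 h)
  have hgK₁ : g ∉ K₁ := fun h => hg1 (hs _ _ (hff₁ g h))
  have hgK₂ : g ∉ K₂ := fun h => hg2 (hs _ _ (hff₂ g h))
  left
  refine ⟨g, hgD, ?_⟩
  intro y hy hgy
  have hyK₁ : y ∉ K₁ := fun h => hK₁.1.2.2 y h g hgD hgK₁ (hs _ _ hgy)
  have hyK₂ : y ∉ K₂ := fun h => hK₂.1.2.2 y h g hgD hgK₂ (hs _ _ hgy)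
  have hy1 : ¬ R f₁ y := hK₁.1.2.2 f₁ hf₁ y hy hyK₁
  have hy2 : ¬ R f₂ y := hK₂.1.2.2 f₂ hf₂ y hy hyK₂
  exact hy1 ((hag y ⟨fun h => absurd h hy1, fun h => absurd h hy2⟩).1 hgy)

theorem pairsIn_compl {R : X → X → Prop} {D : Finset X} (h : PairsIn R D) :
    PairsIn (fun x y => ¬ R x y) D := by
  intro u hu v hv h1 h2
  obtain ⟨g, hg, h3, h4, h5, h6⟩ := h u hu v hv (not_iff_not.1 h1)
    (fun h' => h2 (not_iff_not.2 h'))
  refine ⟨g, hg, fun h' => h3 (not_iff_not.1 h'), not_iff_not.2 h4, not_iff_not.2 h5, ?_⟩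
  intro x hx
  exact not_iff_not.2 (h6 x (not_iff_not.1 hx))

theorem p4_compl {R : X → X → Prop} (hs : ∀ x y, R x y → R y x) {a b c d : X}
    (h : P4 (fun x y => ¬ R x y) a b c d) : P4 R b d a c := by
  obtain ⟨h1, h2, h3, h4, h5, h6⟩ := h
  refine ⟨not_not.1 h6, hs _ _ (not_not.1 h5), not_not.1 h4, fun h => h1 (hs _ _ h), h2,
    fun h => h3 (hs _ _ h)⟩

theorem free_compl {R : X → X → Prop} (hs : ∀ x y, R x y → R y x) {D : Finset X}
    (h : Free R D) : Free (fun x y => ¬ R x y) D :=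
  fun a ha b hb c hc d hd h' => h b hb d hd a ha c hc (p4_compl hs h')

/-- Claim A: a constant vertex -/
theorem claimA : ∀ (n : ℕ) (R : X → X → Prop), (∀ x y, R x y → R y x) → ∀ D : Finset X,
    D.card = n → D.Nonempty → Free R D → PairsIn R D → Const R D := by
  intro n
  induction n using Nat.strong_induction_on with
  | _ n ih =>
    intro R hs D hD hne hf hp
    rcases Nat.lt_or_ge D.card 2 with h2 | h2
    · have h1 : D.card = 1 := by
        have := Finset.card_pos.2 hne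
        omega
      obtain ⟨x, rfl⟩ := Finset.card_eq_one.1 h1
      by_cases hx : R x x
      · right
        exact ⟨x, Finset.mem_singleton_self _, fun y hy => by
          rw [Finset.mem_singleton] at hy
          rw [hy]
          exact hx⟩
      · left
        exact ⟨x, Finset.mem_singleton_self _, fun y hy => by
          rw [Finset.mem_singleton] at hy
          rw [hy]
          exact hx⟩
    · obtain ⟨B, hBD, hBne, hBn, hB⟩ := seinsche_rel R hs D hf h2
      rcases hB with hB | hB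
      · -- complement
        have hs' : ∀ x y, ¬ R x y → ¬ R y x := fun x y h h' => h (hs _ _ h')
        have h3 : Const (fun x y => ¬ R x y) D := by
          refine step0 (fun x y => ¬ R x y) hs' D ?_ (free_compl hs hf) (pairsIn_compl hp) B hBD
            hBne hBn (fun u hu w hw hwn h => h (hB u hu w hw hwn))
          intro D' hc hne' hf' hp'
          exact ih D'.card (by omega) (fun x y => ¬ R x y) hs' D' rfl hne' hf' hp'
        rcases h3 with ⟨x, hx, h⟩ | ⟨x, hx, h⟩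
        · right
          exact ⟨x, hx, fun y hy => not_not.1 (h y hy)⟩
        · left
          exact ⟨x, hx, h⟩
      · refine step0 R hs D ?_ hf hp B hBD hBne hBn hB
        intro D' hc hne' hf' hp'
        exact ih D'.card (by omega) R hs D' rfl hne' hf' hp'

theorem const_of (R : X → X → Prop) (hs : ∀ x y, R x y → R y x) (D : Finset X)
    (hne : D.Nonempty) (hf : Free R D) (hp : PairsIn R D) : Const R D :=
  claimA _ R hs D rfl hne hf hp

/-- a component with an edge (or a loop) has a full vertex -/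
theorem comp_full (R : X → X → Prop) (hs : ∀ x y, R x y → R y x) (D K : Finset X)
    (hf : Free R D) (hp : PairsIn R D) (hK : Comp R D K) (he : ∃ u ∈ K, ∃ v ∈ K, R u v) :
    ∃ f ∈ K, ∀ y ∈ K, R f y := by
  classical
  rcases const_of R hs K hK.1.2.1 (hf.mono hK.1.1) (comp_pairs R hs D K hK hf hp) with h | h
  · exfalso
    obtain ⟨x, hx, hxy⟩ := h
    have h1 : Closed R D {x} := by
      refine ⟨by simpa using hK.1.1 hx, Finset.singleton_nonempty _, ?_⟩
      intro u hu w hw hwn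
      rw [Finset.mem_singleton] at hu
      subst hu
      by_cases hwK : w ∈ K
      · exact hxy w hwK
      · exact hK.1.2.2 u hx w hw hwK
    have h2 := hK.2 {x} (by simpa using hx) h1
    obtain ⟨u, hu, v, hv, huv⟩ := he
    rw [← h2, Finset.mem_singleton] at hu hv
    subst hu
    subst hv
    exact hxy _ hx huv
  · exact h

end Pool.Agent.H42.Cyl
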