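import Mathlib
import Pool.Agent.H17.P3.Defs
import Pool.Agent.H42.Cyl.Base

set_option autoImplicit false

/-!
The matrix statement (P3): a symmetric matrix over `ZMod 2` in which every closed pair has a midpoint
and every induced path with colours `0110` splits has no induced path
(MP_a46c6f_co; proof of helper44's note 7046, minimal cylinder).
-/

namespace Pool.Agent.H42.Cyl

variable {X : Type}

/-- closed under agreement with the constant columns -/
def Cyl (R : X → X → Prop) (C : Finset X) : Prop :=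
  ∀ g, (∀ (y : X) (s : Prop), (∀ u ∈ C, (R u y ↔ s)) → (R g y ↔ s)) → g ∈ C

/-- every closed pair has a midpoint -/
def PairsAll (R : X → X → Prop) : Prop :=
  ∀ u v, (R u u ↔ R v v) → ¬ (R u v ↔ R u u) →
    ∃ g, ¬ (R g g ↔ R u u) ∧ (R g u ↔ R g g) ∧ (R g v ↔ R g g) ∧
      ∀ x, (R u x ↔ R v x) → (R g x ↔ R u x)

theorem pairsIn_of_cyl {R : X → X → Prop} (hp : PairsAll R) {C : Finset X} (hC : Cyl R C) :
    PairsIn R C := by
  intro u hu v hv h1 h2
  obtain ⟨g, h3, h4, h5, h6⟩ := hp u v h1 h2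
  refine ⟨g, hC g ?_, h3, h4, h5, h6⟩
  intro y s hy
  have hu' := hy u hu
  have hv' := hy v hv
  exact (h6 y (hu'.trans hv'.symm)).trans hu'

open Classical in
theorem cyl_pos {R : X → X → Prop} (hs : ∀ x y, R x y → R y x) {C : Finset X} (hC : Cyl R C)
    (w : X) : Cyl R (C.filter (fun x => R w x)) := by
  intro g hg
  rw [Finset.mem_filter]
  refine ⟨hC g ?_, ?_⟩
  · intro y s hy
    exact hg y s (fun u hu => hy u (Finset.mem_filter.1 hu).1)
  · have := hg w True (fun u hu => ⟨fun _ => trivial, fun _ => hs _ _ (Finset.mem_filter.1 hu).2⟩)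
    exact hs _ _ (this.2 trivial)

open Classical in
theorem cyl_neg {R : X → X → Prop} (hs : ∀ x y, R x y → R y x) {C : Finset X} (hC : Cyl R C)
    (w : X) : Cyl R (C.filter (fun x => ¬ R w x)) := by
  intro g hg
  rw [Finset.mem_filter]
  refine ⟨hC g ?_, ?_⟩
  · intro y s hy
    exact hg y s (fun u hu => hy u (Finset.mem_filter.1 hu).1)
  · have := hg w False (fun u hu => ⟨fun h => (Finset.mem_filter.1 hu).2 (hs _ _ h),
      fun h => h.elim⟩)
    exact fun h => this.1 (hs _ _ h)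

open Classical in
theorem core (R : X → X → Prop) (hs : ∀ x y, R x y → R y x) (hp : PairsAll R) (C : Finset X)
    (hC : Cyl R C) (hmin : ∀ C' ⊆ C, C' ≠ C → Cyl R C' → Free R C') (hP4 : ¬ Free R C)
    (hnf : ¬ ∃ f ∈ C, ∀ y ∈ C, R f y) :
    ∃ a ∈ C, ∃ b ∈ C, ∃ c ∈ C, ∃ d ∈ C, P4 R a b c d ∧ ¬ R a a ∧ R b b ∧ R c c ∧ ¬ R d d ∧
      ∀ g ∈ C, ((R g a ↔ R g d) ∨ (R g b ↔ R g c)) := by
  have hpC : PairsIn R C := pairsIn_of_cyl hp hC
  -- (0)
  have hFpos : ∀ w, (∃ v ∈ C, ¬ R w v) → Free R (C.filter (fun x => R w x)) := by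
    intro w ⟨v, hv, hwv⟩
    apply hmin _ (Finset.filter_subset _ _) _ (cyl_pos hs hC w)
    intro h
    have : v ∈ C.filter (fun x => R w x) := by rw [h]; exact hv
    exact hwv (Finset.mem_filter.1 this).2
  have hFneg : ∀ w, (∃ v ∈ C, R w v) → Free R (C.filter (fun x => ¬ R w x)) := by
    intro w ⟨v, hv, hwv⟩
    apply hmin _ (Finset.filter_subset _ _) _ (cyl_neg hs hC w)
    intro h
    have : v ∈ C.filter (fun x => ¬ R w x) := by rw [h]; exact hv
    exact (Finset.mem_filter.1 this).2 hwv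
  -- (1)
  have h1 : ∀ w ∈ C, ¬ R w w → (∃ u ∈ C, R w u) →
      ∃ x ∈ C, R x x ∧ R w x ∧ ∀ y ∈ C, R w y → R x y := by
    intro w hw hww ⟨u, hu, hwu⟩
    have hcy := cyl_pos hs hC w
    rcases const_of R hs (C.filter (fun x => R w x)) ⟨u, Finset.mem_filter.2 ⟨hu, hwu⟩⟩
      (hFpos w ⟨w, hw, hww⟩) (pairsIn_of_cyl hp hcy) with ⟨x, hx, hxy⟩ | ⟨x, hx, hxy⟩
    · exfalso
      have hx' := Finset.mem_filter.1 hx
      have hxx : ¬ R x x := hxy x hx
      obtain ⟨g, hg, h3, h4, h5, _⟩ := hpC w hw x hx'.1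
        ⟨fun h => absurd h hww, fun h => absurd h hxx⟩ (fun h => hww (h.1 hx'.2))
      have hgg : R g g := by
        by_contra h
        exact h3 ⟨fun h' => absurd h' h, fun h' => absurd h' hww⟩
      exact hxy g (Finset.mem_filter.2 ⟨hg, hs _ _ (h4.2 hgg)⟩) (hs _ _ (h5.2 hgg))
    · have hx' := Finset.mem_filter.1 hx
      exact ⟨x, hx'.1, hxy x hx, hx'.2, fun y hy hwy => hxy y (Finset.mem_filter.2 ⟨hy, hwy⟩)⟩
  -- (2)
  have h2 : ∀ b ∈ C, ∀ c ∈ C, R b b → R c c → R b c → (∃ u ∈ C, R b u ∧ ¬ R c u) →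
      ∃ a ∈ C, R b a ∧ ¬ R c a ∧ ∀ y ∈ C, R b y → ¬ R c y → ¬ R a y := by
    intro b hb c hc hbb hcc hbc ⟨u, hu, hbu, hcu⟩
    have hcy := cyl_pos hs (cyl_neg hs hC c) b
    have hfr : Free R ((C.filter (fun x => ¬ R c x)).filter (fun x => R b x)) :=
      (hFneg c ⟨b, hb, hs _ _ hbc⟩).mono (Finset.filter_subset _ _)
    have hmem : ∀ y, y ∈ (C.filter (fun x => ¬ R c x)).filter (fun x => R b x) ↔
        y ∈ C ∧ ¬ R c y ∧ R b y := by
      intro y
      rw [Finset.mem_filter, Finset.mem_filter, and_assoc]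
    rcases const_of R hs _ ⟨u, (hmem u).2 ⟨hu, hcu, hbu⟩⟩ hfr (pairsIn_of_cyl hp hcy)
      with ⟨x, hx, hxy⟩ | ⟨x, hx, hxy⟩
    · have hx' := (hmem x).1 hx
      exact ⟨x, hx'.1, hx'.2.2, hx'.2.1, fun y hy h h' => hxy y ((hmem y).2 ⟨hy, h', h⟩)⟩
    · exfalso
      have hx' := (hmem x).1 hx
      have hxx : R x x := hxy x hx
      have hxc : ¬ R x c := fun h => hx'.2.1 (hs _ _ h)
      obtain ⟨g, hg, h3, h4, h5, h6⟩ := hpC x hx'.1 c hc ⟨fun _ => hcc, fun _ => hxx⟩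
        (fun h => hxc (h.2 hxx))
      have hgg : ¬ R g g := fun h => h3 ⟨fun _ => hxx, fun _ => h⟩
      have hgx : ¬ R g x := fun h => hgg (h4.1 h)
      have hgc : ¬ R g c := fun h => hgg (h5.1 h)
      have hgb : R g b := (h6 b ⟨fun _ => hs _ _ hbc, fun _ => hs _ _ hx'.2.2⟩).2 (hs _ _ hx'.2.2)
      exact hgx (hs _ _ (hxy g ((hmem g).2 ⟨hg, fun h => hgc (hs _ _ h), hs _ _ hgb⟩)))
  -- the path in `C`
  unfold Free at hP4
  push Not at hP4
  obtain ⟨p, hpC', q, hqC, r, hrC, t, htC, hT⟩ := hP4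
  -- (3) a maximal neighbourhood
  obtain ⟨b, hb, hbmax⟩ := Finset.exists_max_image C
    (fun x => (C.filter (fun y => R x y)).card) ⟨p, hpC'⟩
  have hmax : ∀ b' ∈ C, (∀ y ∈ C, R b y → R b' y) → ∀ y ∈ C, R b' y → R b y := by
    intro b' hb' hsub y hy hy'
    have hsub' : C.filter (fun y => R b y) ⊆ C.filter (fun y => R b' y) := by
      intro z hz
      rw [Finset.mem_filter] at hz ⊢
      exact ⟨hz.1, hsub z hz.1 hz.2⟩
    have heq := Finset.eq_of_subset_of_card_le hsub' (hbmax b' hb')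
    have : y ∈ C.filter (fun y => R b y) := by
      rw [heq]
      exact Finset.mem_filter.2 ⟨hy, hy'⟩
    exact (Finset.mem_filter.1 this).2
  have hbne : ∃ u ∈ C, R b u := by
    have h3 := hbmax p hpC'
    have h4 : 0 < (C.filter (fun y => R p y)).card :=
      Finset.card_pos.2 ⟨q, Finset.mem_filter.2 ⟨hqC, hT.1⟩⟩
    have h5 : 0 < (C.filter (fun y => R b y)).card := lt_of_lt_of_le h4 h3
    obtain ⟨u, hu⟩ := Finset.card_pos.1 h5
    exact ⟨u, (Finset.mem_filter.1 hu).1, (Finset.mem_filter.1 hu).2⟩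
  have hbb : R b b := by
    by_contra hbb
    obtain ⟨x, hx, _, hbx, hxy⟩ := h1 b hb hbb hbne
    exact hbb (hmax x hx hxy b hb (hs _ _ hbx))
  have hbnf : ∃ v ∈ C, ¬ R b v := by
    by_contra h
    push Not at h
    exact hnf ⟨b, hb, h⟩
  -- a neighbour of `b` with a neighbour outside
  have hcross : ∃ y ∈ C, ∃ u ∈ C, R b y ∧ ¬ R b u ∧ R y u := by
    by_contra hno
    push Not at hno
    have hstep : ∀ x ∈ C, ∀ z ∈ C, R x z → (R b x ↔ R b z) := by
      intro x hx z hz hxz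
      constructor
      · intro h
        by_contra h'
        exact hno x hx z hz h h' hxz
      · intro h
        by_contra h'
        exact hno z hz x hx h h' (hs _ _ hxz)
    have e1 := hstep p hpC' q hqC hT.1
    have e2 := hstep q hqC r hrC hT.2.1
    have e3 := hstep r hrC t htC hT.2.2.1
    by_cases hbp : R b p
    · have hq := e1.1 hbp
      have hr := e2.1 hq
      have ht := e3.1 hr
      exact hFpos b hbnf p (Finset.mem_filter.2 ⟨hpC', hbp⟩) q (Finset.mem_filter.2 ⟨hqC, hq⟩)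
        r (Finset.mem_filter.2 ⟨hrC, hr⟩) t (Finset.mem_filter.2 ⟨htC, ht⟩) hT
    · have hq : ¬ R b q := fun h => hbp (e1.2 h)
      have hr : ¬ R b r := fun h => hq (e2.2 h)
      have ht : ¬ R b t := fun h => hr (e3.2 h)
      exact hFneg b hbne p (Finset.mem_filter.2 ⟨hpC', hbp⟩) q (Finset.mem_filter.2 ⟨hqC, hq⟩)
        r (Finset.mem_filter.2 ⟨hrC, hr⟩) t (Finset.mem_filter.2 ⟨htC, ht⟩) hT
  obtain ⟨y, hy, u, hu, hby, hbu, hyu⟩ := hcross
  have hc₀ : ∃ c₀ ∈ C, R c₀ c₀ ∧ R c₀ b ∧ R c₀ u := by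
    by_cases hyy : R y y
    · exact ⟨y, hy, hyy, hs _ _ hby, hyu⟩
    · obtain ⟨x, hx, hxx, _, hxy⟩ := h1 y hy hyy ⟨u, hu, hyu⟩
      exact ⟨x, hx, hxx, hxy b hb (hs _ _ hby), hxy u hu hyu⟩
  obtain ⟨c₀, hc₀, hcc₀, hcb₀, hcu₀⟩ := hc₀
  obtain ⟨d', hd', hcd', hbd', hiso'⟩ := h2 c₀ hc₀ b hb hcc₀ hbb hcb₀ ⟨u, hu, hcu₀, hbu⟩
  have hdd' : ¬ R d' d' := hiso' d' hd' hcd' hbd'
  obtain ⟨q', hq', hqq', hdq', hq'y⟩ := h1 d' hd' hdd' ⟨c₀, hc₀, hs _ _ hcd'⟩
  have hbq' : R b q' := by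
    by_contra h
    exact hiso' q' hq' (hs _ _ (hq'y c₀ hc₀ (hs _ _ hcd'))) h hdq'
  have h3 : ∃ d ∈ C, ¬ R d d ∧ ¬ R b d ∧ (∃ u ∈ C, R d u) ∧ ∀ y ∈ C, R d y → R b y := by
    by_cases hsub : ∀ y ∈ C, R d' y → R b y
    · exact ⟨d', hd', hdd', hbd', ⟨q', hq', hdq'⟩, hsub⟩
    · push Not at hsub
      obtain ⟨z, hz, hdz, hbz⟩ := hsub
      have hGcy := cyl_neg hs hC b
      have hGf := hFneg b hbne
      have hd'G : d' ∈ C.filter (fun x => ¬ R b x) := Finset.mem_filter.2 ⟨hd', hbd'⟩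
      have hzG : z ∈ C.filter (fun x => ¬ R b x) := Finset.mem_filter.2 ⟨hz, hbz⟩
      obtain ⟨K, hK, hd'K⟩ := exists_comp R hs _ d' hd'G
      have hzK : z ∈ K := by
        by_contra h
        exact hK.1.2.2 d' hd'K z hzG h hdz
      obtain ⟨f, hf, hff⟩ := comp_full R hs _ K hGf (pairsIn_of_cyl hp hGcy) hK
        ⟨d', hd'K, z, hzK, hdz⟩
      have hfG := Finset.mem_filter.1 (hK.1.1 hf)
      have hff' : R f f := hff f hf
      have hfb : ¬ R f b := fun h => hfG.2 (hs _ _ h)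
      obtain ⟨g, hg, h3, h4, h5, h6⟩ := hpC f hfG.1 b hb ⟨fun _ => hbb, fun _ => hff'⟩
        (fun h => hfb (h.2 hff'))
      have hgg : ¬ R g g := fun h => h3 ⟨fun _ => hff', fun _ => h⟩
      have hgf : ¬ R g f := fun h => hgg (h4.1 h)
      have hgb : ¬ R g b := fun h => hgg (h5.1 h)
      have hbg : ¬ R b g := fun h => hgb (hs _ _ h)
      have hgG : g ∈ C.filter (fun x => ¬ R b x) := Finset.mem_filter.2 ⟨hg, hbg⟩
      have hgK : g ∉ K := fun h => hgf (hs _ _ (hff g h))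
      refine ⟨g, hg, hgg, hbg, ⟨q', hq', ?_⟩, ?_⟩
      · have hfq : R f q' := hs _ _ (hq'y f hfG.1 (hs _ _ (hff d' hd'K)))
        exact (h6 q' ⟨fun _ => hbq', fun _ => hfq⟩).2 hfq
      · intro y hy hgy
        by_contra hby
        have hyG : y ∈ C.filter (fun x => ¬ R b x) := Finset.mem_filter.2 ⟨hy, hby⟩
        by_cases hyK : y ∈ K
        · exact hK.1.2.2 y hyK g hgG hgK (hs _ _ hgy)
        · have hfy : ¬ R f y := hK.1.2.2 f hf y hyG hyK
          exact hfy ((h6 y ⟨fun h => absurd h hfy, fun h => absurd h hby⟩).1 hgy)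
  obtain ⟨d, hd, hdd, hbd, hdne, hdsub⟩ := h3
  -- (4)
  obtain ⟨c, hc, hcc, hdc, hcy⟩ := h1 d hd hdd hdne
  have hbc : R b c := hdsub c hc hdc
  have hcd : R c d := hs _ _ hdc
  have hex : ∃ u ∈ C, R b u ∧ ¬ R c u := by
    by_contra h
    push Not at h
    exact hbd (hmax c hc h d hd hcd)
  obtain ⟨a, ha, hba, hca, haiso⟩ := h2 b hb c hc hbb hcc hbc hex
  have haa : ¬ R a a := haiso a ha hba hca
  have had : ¬ R a d := fun h => hca (hcy a ha (hs _ _ h))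
  have hac : ¬ R a c := fun h => hca (hs _ _ h)
  refine ⟨a, ha, b, hb, c, hc, d, hd, ⟨hs _ _ hba, hbc, hcd, hac, had, hbd⟩, haa, hbb, hcc, hdd, ?_⟩
  -- (5)
  intro g hg
  by_contra hbad
  rw [not_or] at hbad
  obtain ⟨hbad1, hbad2⟩ := hbad
  have hgd : ¬ R g d := by
    intro hgd
    have e1 := hs _ _ (hdsub g hg (hs _ _ hgd))
    have e2 := hs _ _ (hcy g hg (hs _ _ hgd))
    exact hbad2 ⟨fun _ => e2, fun _ => e1⟩
  have hga : R g a := by
    by_contra h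
    exact hbad1 ⟨fun h' => absurd h' h, fun h' => absurd h' hgd⟩
  have hgb : ¬ R g b := by
    intro hgb
    have hgc : ¬ R g c := fun h => hbad2 ⟨fun _ => h, fun _ => hgb⟩
    exact haiso g hg (hs _ _ hgb) (fun h => hgc (hs _ _ h)) (hs _ _ hga)
  have hEcy := cyl_neg hs hC d
  have hEf := hFneg d hdne
  have haE : a ∈ C.filter (fun x => ¬ R d x) := Finset.mem_filter.2 ⟨ha, fun h => had (hs _ _ h)⟩
  have hbE : b ∈ C.filter (fun x => ¬ R d x) := Finset.mem_filter.2 ⟨hb, fun h => hbd (hs _ _ h)⟩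
  have hgE : g ∈ C.filter (fun x => ¬ R d x) := Finset.mem_filter.2 ⟨hg, fun h => hgd (hs _ _ h)⟩
  obtain ⟨K, hK, hbK⟩ := exists_comp R hs _ b hbE
  have haK : a ∈ K := by
    by_contra h
    exact hK.1.2.2 b hbK a haE h hba
  have hgK : g ∈ K := by
    by_contra h
    exact hK.1.2.2 a haK g hgE h (hs _ _ hga)
  obtain ⟨f, hf, hff⟩ := comp_full R hs _ K hEf (pairsIn_of_cyl hp hEcy) hK
    ⟨b, hbK, a, haK, hba⟩
  have hfE := Finset.mem_filter.1 (hK.1.1 hf)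
  have hfc : R f c := by
    by_contra h
    exact haiso f hfE.1 (hs _ _ (hff b hbK)) (fun h' => h (hs _ _ h')) (hs _ _ (hff a haK))
  have hv : ∃ v ∈ C, R d v ∧ ¬ R f v := by
    by_contra h
    push Not at h
    have hsub : ∀ y ∈ C, R b y → R f y := by
      intro y hy hby
      by_cases hdy : R d y
      · exact h y hy hdy
      · have hyE : y ∈ C.filter (fun x => ¬ R d x) := Finset.mem_filter.2 ⟨hy, hdy⟩
        have hyK : y ∈ K := by
          by_contra h'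
          exact hK.1.2.2 b hbK y hyE h' hby
        exact hff y hyK
    exact hgb (hs _ _ (hmax f hfE.1 hsub g hg (hff g hgK)))
  obtain ⟨v, hv, hdv, hfv⟩ := hv
  have hbv := hdsub v hv hdv
  have hcv := hcy v hv hdv
  exact hFpos c ⟨a, ha, hca⟩ f (Finset.mem_filter.2 ⟨hfE.1, hs _ _ hfc⟩)
    b (Finset.mem_filter.2 ⟨hb, hs _ _ hbc⟩) v (Finset.mem_filter.2 ⟨hv, hcv⟩)
    d (Finset.mem_filter.2 ⟨hd, hcd⟩)
    ⟨hff b hbK, hbv, hs _ _ hdv, hfv, fun h => hfE.2 (hs _ _ h), hbd⟩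

theorem cyl_compl {R : X → X → Prop} {C : Finset X} :
    Cyl (fun x y => ¬ R x y) C ↔ Cyl R C := by
  constructor
  · intro h g hg
    apply h g
    intro y s hy
    have h1 : ∀ u ∈ C, (R u y ↔ ¬ s) := by
      intro u hu
      have := hy u hu
      tauto
    have h2 := hg y (¬ s) h1
    tauto
  · intro h g hg
    apply h g
    intro y s hy
    have h1 : ∀ u ∈ C, (¬ R u y ↔ ¬ s) := fun u hu => not_iff_not.2 (hy u hu)
    exact not_iff_not.1 (hg y (¬ s) h1)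

open Pool.Agent.H17.P3 in
/-- **(P3)** -/
theorem p3 : Pool.Agent.H17.P3.P3 := by
  classical
  intro X _ M hsM hP hS a₀ b₀ c₀ d₀ hT₀
  have : Fintype X := Fintype.ofFinite X
  have key : ∀ s t : ZMod 2, (s = 1 ↔ t = 1) ↔ s = t := by decide
  have key0 : ∀ s : ZMod 2, s = 0 ↔ ¬ s = 1 := by decide
  set R : X → X → Prop := fun x y => M x y = 1 with hR
  have hs : ∀ x y, R x y → R y x := by
    intro x y h
    change M y x = 1
    rw [hsM y x]
    exact h
  have hp : PairsAll R := by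
    intro u v h1 h2
    obtain ⟨g, h3, h4, h5, h6⟩ := hP u v ((key _ _).1 h1) (fun h => h2 ((key _ _).2 h))
    refine ⟨g, fun h => h3 ((key _ _).1 h), (key _ _).2 h4, (key _ _).2 h5, ?_⟩
    intro x hx
    exact (key _ _).2 (h6 x ((key _ _).1 hx))
  -- a minimal cylinder
  have hex : ∃ k, ∃ C : Finset X, Cyl R C ∧ ¬ Free R C ∧ C.card = k := by
    refine ⟨_, Finset.univ, fun g _ => Finset.mem_univ _, ?_, rfl⟩
    intro h
    exact h a₀ (Finset.mem_univ _) b₀ (Finset.mem_univ _) c₀ (Finset.mem_univ _) d₀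
      (Finset.mem_univ _) ⟨hT₀.ab, hT₀.bc, hT₀.cd, (key0 _).1 hT₀.ac, (key0 _).1 hT₀.ad,
        (key0 _).1 hT₀.bd⟩
  obtain ⟨C, hC, hCf, hCc⟩ := Nat.find_spec hex
  have hmin : ∀ C' ⊆ C, C' ≠ C → Cyl R C' → Free R C' := by
    intro C' hsub hne hcy
    by_contra hfree
    have h1 := Nat.find_min' hex ⟨C', hcy, hfree, rfl⟩
    have h2 := Finset.card_lt_card (Finset.ssubset_iff_subset_ne.2 ⟨hsub, hne⟩)
    omega
  -- a splitting point of a path in `C` is in `C`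
  have hsplit : ∀ a ∈ C, ∀ b ∈ C, ∀ c ∈ C, ∀ d ∈ C, P4 R a b c d → ¬ R a a → R b b → R c c →
      ¬ R d d → ∃ g ∈ C, ¬ (R g a ↔ R g d) ∧ ¬ (R g b ↔ R g c) := by
    intro a ha b hb c hc d hd hT haa hbb hcc hdd
    obtain ⟨g, hbad, hag⟩ := hS a b c d ⟨hT.1, hT.2.1, hT.2.2.1, (key0 _).2 hT.2.2.2.1,
      (key0 _).2 hT.2.2.2.2.1, (key0 _).2 hT.2.2.2.2.2⟩ ((key0 _).2 haa) hbb hcc ((key0 _).2 hdd)
    refine ⟨g, hC g ?_, fun h => hbad.1 ((key _ _).1 h), fun h => hbad.2 ((key _ _).1 h)⟩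
    intro y s hy
    have ea := hy a ha
    have eb := hy b hb
    have ec := hy c hc
    have ed := hy d hd
    have := hag y ((key _ _).1 (ea.trans eb.symm)) ((key _ _).1 (ea.trans ec.symm))
      ((key _ _).1 (ea.trans ed.symm))
    exact ((key _ _).2 this).trans ea
  by_cases hfull : ∃ f ∈ C, ∀ y ∈ C, R f y
  · obtain ⟨f, hf, hff⟩ := hfull
    have hs' : ∀ x y, ¬ R x y → ¬ R y x := fun x y h h' => h (hs _ _ h')
    have hp' : PairsAll (fun x y => ¬ R x y) := by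
      intro u v h1 h2
      obtain ⟨g, h3, h4, h5, h6⟩ := hp u v (not_iff_not.1 h1) (fun h' => h2 (not_iff_not.2 h'))
      refine ⟨g, fun h' => h3 (not_iff_not.1 h'), not_iff_not.2 h4, not_iff_not.2 h5, ?_⟩
      intro x hx
      exact not_iff_not.2 (h6 x (not_iff_not.1 hx))
    have hCf' : ¬ Free (fun x y => ¬ R x y) C := by
      intro h
      apply hCf
      intro a ha b hb c hc d hd hT
      refine h b hb d hd a ha c hc ⟨hT.2.2.2.2.2, ?_, hT.2.2.2.1, ?_, ?_, ?_⟩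
      · exact fun h' => hT.2.2.2.2.1 (hs _ _ h')
      · exact fun h' => h' (hs _ _ hT.1)
      · exact fun h' => h' hT.2.1
      · exact fun h' => h' (hs _ _ hT.2.2.1)
    obtain ⟨a, ha, b, hb, c, hc, d, hd, hT, haa, hbb, hcc, hdd, hno⟩ :=
      core (fun x y => ¬ R x y) hs' hp' C (cyl_compl.2 hC)
        (fun C' h1 h2 h3 => free_compl hs (hmin C' h1 h2 (cyl_compl.1 h3))) hCf'
        (fun ⟨z, hz, hzz⟩ => hzz f hf (hs _ _ (hff z hz)))
    obtain ⟨g, hg, hg1, hg2⟩ := hsplit b hb d hd a ha c hc (p4_compl hs hT) hbb (not_not.1 hdd)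
      (not_not.1 haa) hcc
    rcases hno g hg with h | h
    · exact hg2 (not_iff_not.1 h).symm
    · exact hg1 (not_iff_not.1 h)
  · obtain ⟨a, ha, b, hb, c, hc, d, hd, hT, haa, hbb, hcc, hdd, hno⟩ :=
      core R hs hp C hC hmin hCf hfull
    obtain ⟨g, hg, hg1, hg2⟩ := hsplit a ha b hb c hc d hd hT haa hbb hcc hdd
    rcases hno g hg with h | h
    · exact hg1 h
    · exact hg2 h

end Pool.Agent.H42.Cyl
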